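import Pool.Agent.H16.HAS.Lin

/-!
Subspaces which are rational for both structures; Q1 at `z` and the relations among `φ i z i`.
-/

set_option autoImplicit false

open Finset

noncomputable section

namespace Pool.HAS

open Classical in
/-- the indicator of the class of `j` -/
def ind {I : Type} (φ : I → ℂ) (j : I) : I → ℂ := fun i => if IsAlgebraic ℚ (φ i / φ j) then 1 else 0

variable {I : Type}

theorem mem_eq {α β : Type} [Membership α β] {V : β} {x y : α} (h : y ∈ V) (e : x = y) : x ∈ V := e ▸ h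

/-- the `y` with `φ⁻¹ y ∈ V` -/
def Wf (φ : I → ℂ) (V : Submodule ℂ (I → ℂ)) : Submodule K (I → K) where
  carrier := {y | (fun i => (φ i)⁻¹ * (y i : ℂ)) ∈ V}
  add_mem' {x y} hx hy := by
    have := V.add_mem hx hy
    show (fun i => (φ i)⁻¹ * (((x + y) i : K) : ℂ)) ∈ V
    refine mem_eq (this) ?_
    funext i
    simp [mul_add]
  zero_mem' := by
    show (fun i => (φ i)⁻¹ * (((0 : I → K) i : K) : ℂ)) ∈ V
    refine mem_eq (V.zero_mem) ?_
    funext i
    simp
  smul_mem' c x hx := by
    have := V.smul_mem (c : ℂ) hx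
    show (fun i => (φ i)⁻¹ * (((c • x) i : K) : ℂ)) ∈ V
    refine mem_eq (this) ?_
    funext i
    simp [Pi.smul_apply, smul_eq_mul]
    ring

theorem mem_Wf {φ : I → ℂ} {V : Submodule ℂ (I → ℂ)} {y : I → K} :
    y ∈ Wf φ V ↔ (fun i => (φ i)⁻¹ * (y i : ℂ)) ∈ V := Iff.rfl

theorem rat_span {L S : Set (I → ℂ)} (h : S ⊆ L) : Rat L (Submodule.span ℂ S) := by
  apply le_antisymm
  · exact Submodule.span_le.2 Set.inter_subset_left
  · exact Submodule.span_mono fun x hx => ⟨Submodule.subset_span hx, h hx⟩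

theorem geo_eq : Geo I = Ari (fun _ => (1 : ℂ)) := by
  ext v
  simp [Geo, Ari]

theorem lemE {φ : I → ℂ} (hφ : ∀ i, φ i ≠ 0) {V : Submodule ℂ (I → ℂ)} (h : Rat (Ari φ) V)
    {v : I → ℂ} (hv : v ∈ V) :
    (fun i => φ i * v i) ∈ Submodule.span ℂ {w | ∃ y ∈ Wf φ V, w = cv y} := by
  have h1 : v ∈ Submodule.span ℂ ((V : Set (I → ℂ)) ∩ Ari φ) := by
    rw [h]
    exact hv
  clear hv
  induction h1 using Submodule.span_induction with
  | mem x hx =>
      apply Submodule.subset_span
      refine ⟨fun i => ⟨φ i * x i, mem_algebraicClosure_iff.2 (hx.2 i)⟩, ?_, rfl⟩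
      rw [mem_Wf]
      refine mem_eq (hx.1) ?_
      funext i
      show (φ i)⁻¹ * (φ i * x i) = x i
      rw [inv_mul_cancel_left₀ (hφ i)]
  | zero =>
      refine mem_eq (Submodule.zero_mem _) ?_
      funext i
      simp
  | add x y _ _ hx hy =>
      refine mem_eq (Submodule.add_mem _ hx hy) ?_
      funext i
      simp [mul_add]
  | smul c x _ hx =>
      refine mem_eq (Submodule.smul_mem _ c hx) ?_
      funext i
      simp [Pi.smul_apply, smul_eq_mul]
      ring

theorem alg_inv_iff {x y : ℂ} (h : IsAlgebraic ℚ (x / y)) : IsAlgebraic ℚ (y / x) := by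
  have := h.inv
  rwa [inv_div] at this

variable [Fintype I]

theorem step1 {φ : I → ℂ} (hφ : ∀ i, φ i ≠ 0) {V : Submodule ℂ (I → ℂ)} (h1 : Rat (Ari φ) V)
    (h2 : Rat (Geo I) V) {y : I → K} (hy : y ∈ Wf (fun _ => 1) V) (l m : ℂ →ₗ[K] K) :
    (fun i => (l (φ i) * m ((φ i)⁻¹)) * y i) ∈ Wf (fun _ => (1 : ℂ)) V := by
  rw [mem_Wf] at hy
  have ha := lemA _ (lemE hφ h1 hy) l
  rw [mem_Wf] at ha
  rw [geo_eq] at h2
  have hb := lemA _ (lemE (fun _ => one_ne_zero) h2 ha) m
  refine mem_eq (hb) ?_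
  funext i
  show (l (φ i) * m ((φ i)⁻¹)) * y i =
    m (1 * ((φ i)⁻¹ * ((l (φ i * (1⁻¹ * (y i : ℂ))) : K) : ℂ)))
  have e1 : l (φ i * (1⁻¹ * (y i : ℂ))) = y i * l (φ i) := by
    rw [inv_one, one_mul, mul_comm, lin_mul]
  rw [e1, one_mul, mul_comm (φ i)⁻¹, lin_mul]
  ring

theorem step2 {φ : I → ℂ} (hφ : ∀ i, φ i ≠ 0) {V : Submodule ℂ (I → ℂ)} (h1 : Rat (Ari φ) V)
    (h2 : Rat (Geo I) V) (j : I) (s : Finset I) (hs : ∀ l ∈ s, ¬ IsAlgebraic ℚ (φ l / φ j)) :
    ∃ m : I → K, (∀ i, IsAlgebraic ℚ (φ i / φ j) → m i = 1) ∧ (∀ l ∈ s, m l = 0) ∧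
      ∀ y ∈ Wf (fun _ => (1 : ℂ)) V, (fun i => m i * y i) ∈ Wf (fun _ => (1 : ℂ)) V := by
  classical
  induction s using Finset.induction_on with
  | empty => exact ⟨fun _ => 1, fun _ _ => rfl, by simp, fun y hy => by simpa using hy⟩
  | insert l s hl ih =>
      obtain ⟨m, ha, hb, hc⟩ := ih fun x hx => hs x (Finset.mem_insert_of_mem hx)
      have hnl : ¬ IsAlgebraic ℚ (φ j / φ l) := fun h =>
        hs l (Finset.mem_insert_self _ _) (alg_inv_iff h)
      obtain ⟨f, hf1, hf2⟩ := exists_form2 (hφ l) hnl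
      obtain ⟨g, hg⟩ := exists_form (inv_ne_zero (hφ j))
      refine ⟨fun i => m i * (f (φ i) * g ((φ i)⁻¹)), ?_, ?_, ?_⟩
      · intro i hi
        have e1 : φ i = ((⟨φ i / φ j, mem_algebraicClosure_iff.2 hi⟩ : K) : ℂ) * φ j := by
          show φ i = φ i / φ j * φ j
          rw [div_mul_cancel₀ _ (hφ j)]
        have e2 : (φ i)⁻¹ = ((⟨φ j / φ i, mem_algebraicClosure_iff.2 (alg_inv_iff hi)⟩ : K) : ℂ) *
            (φ j)⁻¹ := by
          show (φ i)⁻¹ = φ j / φ i * (φ j)⁻¹
          have := hφ j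
          have := hφ i
          field_simp
        have e3 : f (φ i) = ⟨φ i / φ j, mem_algebraicClosure_iff.2 hi⟩ := by
          conv_lhs => rw [e1]
          rw [lin_mul, hf1, mul_one]
        have e4 : g ((φ i)⁻¹) = ⟨φ j / φ i, mem_algebraicClosure_iff.2 (alg_inv_iff hi)⟩ := by
          conv_lhs => rw [e2]
          rw [lin_mul, hg, mul_one]
        show m i * (f (φ i) * g ((φ i)⁻¹)) = 1
        rw [ha i hi, e3, e4, one_mul]
        apply Subtype.ext
        show φ i / φ j * (φ j / φ i) = 1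
        have := hφ j
        have := hφ i
        field_simp
      · intro x hx
        rcases Finset.mem_insert.1 hx with rfl | hx
        · show m x * (f (φ x) * g ((φ x)⁻¹)) = 0
          rw [hf2]
          ring
        · show m x * (f (φ x) * g ((φ x)⁻¹)) = 0
          rw [hb x hx]
          ring
      · intro y hy
        have := hc _ (step1 hφ h1 h2 hy f g)
        refine mem_eq (this) ?_
        funext i
        ring

theorem step3 {φ : I → ℂ} (hφ : ∀ i, φ i ≠ 0) {V : Submodule ℂ (I → ℂ)} (h1 : Rat (Ari φ) V)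
    (h2 : Rat (Geo I) V) (j : I) {v : I → ℂ} (hv : v ∈ V) : (fun i => ind φ j i * v i) ∈ V := by
  classical
  obtain ⟨m, ha, hb, hc⟩ := step2 hφ h1 h2 j
    (Finset.univ.filter fun l => ¬ IsAlgebraic ℚ (φ l / φ j)) (by simp)
  have hm : ∀ i, (m i : ℂ) = ind φ j i := by
    intro i
    unfold ind
    split_ifs with h
    · rw [ha i h]
      rfl
    · rw [hb i (by simp [h])]
      rfl
  rw [geo_eq] at h2
  have h3 := lemE (fun _ => one_ne_zero) h2 hv
  have h4 : v ∈ Submodule.span ℂ {w | ∃ y ∈ Wf (fun _ => (1 : ℂ)) V, w = cv y} := by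
    refine mem_eq (h3) ?_
    funext i
    rw [one_mul]
  clear h3 hv
  induction h4 using Submodule.span_induction with
  | mem x hx =>
      obtain ⟨y, hy, rfl⟩ := hx
      have := hc y hy
      rw [mem_Wf] at this
      refine mem_eq (this) ?_
      funext i
      rw [inv_one, one_mul, ← hm i]
      rfl
  | zero =>
      refine mem_eq (V.zero_mem) ?_
      funext i
      simp
  | add x y _ _ hx hy =>
      refine mem_eq (V.add_mem hx hy) ?_
      funext i
      simp [mul_add]
  | smul c x _ hx =>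
      refine mem_eq (V.smul_mem c hx) ?_
      funext i
      simp [Pi.smul_apply, smul_eq_mul]
      ring

/-- the class sums of the relations vanish -/
def Cls (φ u : I → ℂ) : Prop := ∀ a, Rel u a → ∀ j, ∑ i, ind φ j i * (a i * u i) = 0

/-- hyperplanes are rational -/
theorem rat_hyper {φ : I → ℂ} (hφ : ∀ i, φ i ≠ 0) (a : I → K) (V : Submodule ℂ (I → ℂ))
    (hV : ∀ w, w ∈ V ↔ ∑ i, (a i : ℂ) * (φ i * w i) = 0) : Rat (Ari φ) V := by
  apply le_antisymm
  · exact Submodule.span_le.2 Set.inter_subset_left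
  · intro w hw
    have h1 := lemB (fun i => φ i * w i)
    have key : ∀ u ∈ Submodule.span ℂ {v | ∃ l : ℂ →ₗ[K] K, v = cv (app l (fun i => φ i * w i))},
        (fun i => (φ i)⁻¹ * u i) ∈ Submodule.span ℂ ((V : Set (I → ℂ)) ∩ Ari φ) := by
      intro u hu
      induction hu using Submodule.span_induction with
      | mem x hx =>
          obtain ⟨l, rfl⟩ := hx
          apply Submodule.subset_span
          refine ⟨(hV _).2 ?_, ?_⟩
          · have h2 : ∑ i, (a i : ℂ) * (φ i * ((φ i)⁻¹ * cv (app l (fun i => φ i * w i)) i)) =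
                ((l (∑ i, (a i : ℂ) * (φ i * w i)) : K) : ℂ) := by
              rw [lin_sum]
              push_cast
              refine Finset.sum_congr rfl fun i _ => ?_
              rw [mul_inv_cancel_left₀ (hφ i)]
              rfl
            rw [h2, (hV w).1 hw, map_zero]
            rfl
          · intro i
            rw [mul_inv_cancel_left₀ (hφ i)]
            exact alg_coe _
      | zero =>
          refine mem_eq (Submodule.zero_mem _) ?_
          funext i
          simp
      | add x y _ _ hx hy =>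
          refine mem_eq (Submodule.add_mem _ hx hy) ?_
          funext i
          simp [mul_add]
      | smul c x _ hx =>
          refine mem_eq (Submodule.smul_mem _ c hx) ?_
          funext i
          simp [Pi.smul_apply, smul_eq_mul]
          ring
    have := key _ h1
    refine mem_eq (this) ?_
    funext i
    rw [inv_mul_cancel_left₀ (hφ i)]

theorem cls_of_q1 {φ z : I → ℂ} (hφ : ∀ i, φ i ≠ 0) (h : Q1 (Geo I) (Ari φ) z) :
    Cls φ (fun i => φ i * z i) := by
  intro a ha j
  let f : (I → ℂ) →ₗ[ℂ] ℂ :=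
    { toFun := fun w => ∑ i, a i * (φ i * w i)
      map_add' := fun x y => by simp [mul_add, Finset.sum_add_distrib]
      map_smul' := fun c x => by
        simp only [Pi.smul_apply, smul_eq_mul, RingHom.id_apply, Finset.mul_sum]
        exact Finset.sum_congr rfl fun i _ => by ring }
  have hf : ∀ w, w ∈ LinearMap.ker f ↔ ∑ i, a i * (φ i * w i) = 0 := fun w => LinearMap.mem_ker
  have hr : Rat (Ari φ) (LinearMap.ker f) :=
    rat_hyper hφ (fun i => ⟨a i, mem_algebraicClosure_iff.2 (ha.1 i)⟩) _ hf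
  obtain ⟨V', hle, h1, h2, hz⟩ := h _ hr ((hf z).2 ha.2)
  have h3 := (hf _).1 (hle (step3 hφ h1 h2 j hz))
  rw [← h3]
  exact Finset.sum_congr rfl fun i _ => by ring

end Pool.HAS
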