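import Mathlib

/-!
The two rational structures of the tangent space at a special point of a Shimura variety.
-/

set_option autoImplicit false

namespace Pool.HAS

section
variable {E : Type} [AddCommGroup E] [Module ℂ E]

/-- The subspace `V` is rational for the structure `L`. -/
def Rat (L : Set E) (V : Submodule ℂ E) : Prop := Submodule.span ℂ ((V : Set E) ∩ L) = V

/-- The assertion of Q1 for the point `z` of `E = T_o X`, where `G` is the geometric and `A` the
arithmetic structure: every `A`-rational subspace `V` which contains `z` has a subspace `V'` which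
is rational for both structures and contains `z`. -/
def Q1 (G A : Set E) (z : E) : Prop :=
  ∀ V : Submodule ℂ E, Rat A V → z ∈ V → ∃ V' ≤ V, Rat A V' ∧ Rat G V' ∧ z ∈ V'

/-- In the coordinates `x`, `G` consists of the vectors with algebraic coordinates, and `A` of the
`v` for which all `φ i * x v i` are algebraic: in suitable bases of the two structures, `ψ` is
diagonal with the entries `φ i`. -/
def Diag {I : Type} (G A : Set E) (x : E ≃ₗ[ℂ] (I → ℂ)) (φ : I → ℂ) : Prop :=
  (∀ i, φ i ≠ 0) ∧ ∀ v, (v ∈ G ↔ ∀ i, IsAlgebraic ℚ (x v i)) ∧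
    (v ∈ A ↔ ∀ i, IsAlgebraic ℚ (φ i * x v i))

end

variable {I : Type} [Fintype I]

/-- `∑ a i u i = 0` is a linear relation with algebraic coefficients. -/
def Rel (u a : I → ℂ) : Prop := (∀ i, IsAlgebraic ℚ (a i)) ∧ ∑ i, a i * u i = 0

/-- Every linear relation among the `u i` with algebraic coefficients is a sum of such relations,
each of which involves only indices `i` for which the `φ i` are proportional over the algebraic
numbers. -/
def Split (φ u : I → ℂ) : Prop :=
  ∀ a, Rel u a → ∃ b : I → I → ℂ, a = ∑ k, b k ∧ ∀ k, Rel u (b k) ∧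
    ∀ i j, b k i ≠ 0 → b k j ≠ 0 → IsAlgebraic ℚ (φ i / φ j)

/-- Every linear relation among the `φ i`, `i ∈ J`, with algebraic coefficients is a sum of linear
relations among the `φ i` with algebraic coefficients and at most two terms. -/
def Elem (J : Set I) (φ : I → ℂ) : Prop :=
  ∀ a, Rel φ a → (∀ i, i ∉ J → a i = 0) → ∃ b : I → I → ℂ, a = ∑ k, b k ∧ ∀ k, Rel φ (b k) ∧
    ∃ i j, ∀ l, l ≠ i → l ≠ j → b k l = 0

end Pool.HAS
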