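import Pool.Agent.H16.HAS.Final

/-!
The theorem.
-/

set_option autoImplicit false

open Finset

namespace Pool.HAS

theorem rat_map {E : Type} [AddCommGroup E] [Module ℂ E] {I : Type} {L : Set E} {L' : Set (I → ℂ)}
    (x : E ≃ₗ[ℂ] (I → ℂ)) (h : ∀ v, v ∈ L ↔ x v ∈ L') (V : Submodule ℂ E) :
    Rat L V ↔ Rat L' (V.map (x : E →ₗ[ℂ] (I → ℂ))) := by
  have e : ((V.map (x : E →ₗ[ℂ] (I → ℂ)) : Submodule ℂ (I → ℂ)) : Set (I → ℂ)) ∩ L' =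
      (x : E →ₗ[ℂ] (I → ℂ)) '' ((V : Set E) ∩ L) := by
    ext w
    constructor
    · rintro ⟨⟨v, hv, rfl⟩, hw⟩
      exact ⟨v, ⟨hv, (h v).2 hw⟩, rfl⟩
    · rintro ⟨v, ⟨hv, hl⟩, rfl⟩
      exact ⟨⟨v, hv, rfl⟩, (h v).1 hl⟩
  unfold Rat
  rw [e, Submodule.span_image]
  constructor
  · intro h1
    rw [h1]
  · intro h1
    exact Submodule.map_injective_of_injective x.injective h1

theorem transfer {E : Type} [AddCommGroup E] [Module ℂ E] {I : Type} {G A : Set E}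
    {x : E ≃ₗ[ℂ] (I → ℂ)} {φ : I → ℂ} (h : Diag G A x φ) (z : E) :
    Q1 G A z ↔ Q1 (Geo I) (Ari φ) (x z) := by
  have hG : ∀ v, v ∈ G ↔ x v ∈ Geo I := fun v => (h.2 v).1
  have hA : ∀ v, v ∈ A ↔ x v ∈ Ari φ := fun v => (h.2 v).2
  constructor
  · intro hq W hW hz
    have hWm : (W.comap (x : E →ₗ[ℂ] (I → ℂ))).map (x : E →ₗ[ℂ] (I → ℂ)) = W :=
      Submodule.map_comap_eq_of_surjective x.surjective W
    obtain ⟨V', hle, h1, h2, hz'⟩ := hq (W.comap (x : E →ₗ[ℂ] (I → ℂ)))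
      ((rat_map x hA _).2 (by rw [hWm]; exact hW)) hz
    refine ⟨V'.map (x : E →ₗ[ℂ] (I → ℂ)), ?_, (rat_map x hA _).1 h1, (rat_map x hG _).1 h2,
      ⟨z, hz', rfl⟩⟩
    rw [← hWm]
    exact Submodule.map_mono hle
  · intro hq V hV hz
    obtain ⟨W', hle, h1, h2, hz'⟩ := hq (V.map (x : E →ₗ[ℂ] (I → ℂ))) ((rat_map x hA _).1 hV)
      ⟨z, hz, rfl⟩
    have hWm : (W'.comap (x : E →ₗ[ℂ] (I → ℂ))).map (x : E →ₗ[ℂ] (I → ℂ)) = W' :=
      Submodule.map_comap_eq_of_surjective x.surjective W'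
    refine ⟨W'.comap (x : E →ₗ[ℂ] (I → ℂ)), ?_, (rat_map x hA _).2 (by rw [hWm]; exact h1),
      (rat_map x hG _).2 (by rw [hWm]; exact h2), hz'⟩
    intro v hv
    obtain ⟨w, hw, hwv⟩ := hle hv
    have : w = v := x.injective hwv
    rw [← this]
    exact hw

theorem main (E : Type) [AddCommGroup E] [Module ℂ E] (G A : Set E) (I : Type) [Fintype I]
    (x : E ≃ₗ[ℂ] (I → ℂ)) (φ : I → ℂ) (h : Diag G A x φ) :
    (∀ z, Q1 G A z ↔ Split φ fun i => φ i * x z i) ∧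
    (∀ z, (∀ i j, x z i ≠ 0 → x z j ≠ 0 → IsAlgebraic ℚ (φ i / φ j)) → Q1 G A z) ∧
    (∀ z ∈ G, Q1 G A z ↔ Elem {i | x z i ≠ 0} φ) ∧
    (∀ z ∈ G, ∀ i j, (∀ l, x z l ≠ 0 → l = i ∨ l = j) → Q1 G A z) ∧
    (∀ z ∈ G, ∀ (a : I → ℂ) (m : I → ℤ) (y r : ℂ), (∀ i, IsAlgebraic ℚ (a i)) →
      (∀ i, x z i ≠ 0 → φ i = a i * y * r ^ m i) → Q1 G A z) ∧
    (∀ z ∈ G, ∀ (θ₀ : ℂ) (θ : I → ℂ), (∀ i, φ i = θ₀ * θ i / Real.pi) →
      Elem {i | x z i ≠ 0} θ → Q1 G A z) := by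
  have hφ := h.1
  have hpi : (Real.pi : ℂ) ≠ 0 := by exact_mod_cast Real.pi_ne_zero
  have hgeo : ∀ z ∈ G, (Q1 G A z ↔ Elem {i | x z i ≠ 0} φ) := fun z hz =>
    (transfer h z).trans (q1_geo_iff hφ ((h.2 z).1.1 hz))
  refine ⟨fun z => (transfer h z).trans (q1_iff hφ (x z)),
    fun z hc => (transfer h z).2 (q1_one hφ _ hc), hgeo,
    fun z hz i j hc => (hgeo z hz).2 (elem_two φ i j hc), ?_, ?_⟩
  · intro z hz a m y r ha hm
    exact (transfer h z).2 (q1_pow hφ ((h.2 z).1.1 hz) ha hm)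
  · intro z hz θ₀ θ hφθ heθ
    rcases isEmpty_or_nonempty I with hI | ⟨⟨i0⟩⟩
    · exact (hgeo z hz).2 fun a _ _ => ⟨fun i => isEmptyElim i, funext fun i => isEmptyElim i,
        fun k => isEmptyElim k⟩
    · have h0 : θ₀ ≠ 0 := by
        rintro rfl
        apply hφ i0
        rw [hφθ i0]
        simp
      have he : φ = fun i => (θ₀ / (Real.pi : ℂ)) * θ i := by
        funext i
        rw [hφθ i]
        ring
      rw [hgeo z hz, he]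
      exact elem_scale heθ (div_ne_zero h0 hpi)

end Pool.HAS
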