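import Pool.Agent.H16.HAS.Main

/-!
The cases.
-/

set_option autoImplicit false

open Finset

noncomputable section

namespace Pool.HAS

theorem q1_geo_iff {I : Type} [Fintype I] {φ : I → ℂ} (hφ : ∀ i, φ i ≠ 0) {z : I → ℂ}
    (hz : z ∈ Geo I) : Q1 (Geo I) (Ari φ) z ↔ Elem {i | z i ≠ 0} φ := by
  rw [elem_iff hφ]
  constructor
  · intro hq a ha hJ j _
    have hz0 : ∀ i, a i * (z i)⁻¹ * (φ i * z i) = a i * φ i := by
      intro i
      by_cases hi : z i = 0
      · rw [hJ i (by simpa using hi)]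
        ring
      · field_simp
    have h1 := cls_of_q1 hφ hq (fun i => a i * (z i)⁻¹) ⟨fun i => (ha.1 i).mul (hz i).inv, by
      rw [← ha.2]
      exact Finset.sum_congr rfl fun i _ => hz0 i⟩ j
    rw [← h1]
    exact Finset.sum_congr rfl fun i _ => by rw [hz0 i]
  · intro h
    apply q1_of_cls hφ
    intro a ha j
    have h1 := clsOn_all hφ h (a := fun i => a i * z i) ⟨fun i => (ha.1 i).mul (hz i), by
      rw [← ha.2]
      exact Finset.sum_congr rfl fun i _ => by ring⟩ (fun i hi => by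
        have : z i = 0 := by simpa using hi
        show a i * z i = 0
        rw [this, mul_zero]) j
    rw [← h1]
    exact Finset.sum_congr rfl fun i _ => by ring

theorem elem_two {I : Type} [Fintype I] {J : Set I} (φ : I → ℂ) (i j : I)
    (h : ∀ l ∈ J, l = i ∨ l = j) : Elem J φ := by
  classical
  intro a ha hJ
  refine ⟨fun k => if k = i then a else 0, ?_, fun k => ?_⟩
  · rw [Finset.sum_ite_eq' univ i (fun _ => a), if_pos (Finset.mem_univ _)]
  · show Rel φ (if k = i then a else 0) ∧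
      ∃ p q, ∀ l, l ≠ p → l ≠ q → (if k = i then a else 0 : I → ℂ) l = 0
    by_cases hk : k = i
    · rw [if_pos hk]
      refine ⟨ha, i, j, fun l h0 h1 => hJ l fun hl => ?_⟩
      rcases h l hl with h2 | h2
      · exact h0 h2
      · exact h1 h2
    · rw [if_neg hk]
      exact ⟨⟨fun i => isAlgebraic_zero, by simp⟩, i, i, fun l _ _ => rfl⟩

theorem q1_one {I : Type} [Fintype I] {φ : I → ℂ} (hφ : ∀ i, φ i ≠ 0) (z : I → ℂ)
    (h : ∀ i j, z i ≠ 0 → z j ≠ 0 → IsAlgebraic ℚ (φ i / φ j)) : Q1 (Geo I) (Ari φ) z := by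
  apply q1_of_cls hφ
  intro a ha j
  by_cases hex : ∃ i0, z i0 ≠ 0 ∧ IsAlgebraic ℚ (φ i0 / φ j)
  · obtain ⟨i0, h0, h1⟩ := hex
    rw [← ha.2]
    refine Finset.sum_congr rfl fun i _ => ?_
    show ind φ j i * (a i * (φ i * z i)) = a i * (φ i * z i)
    by_cases hi : z i = 0
    · rw [hi]
      ring
    · rw [ind_one (alg_trans (hφ i0) (h i i0 hi h0) h1), one_mul]
  · push Not at hex
    refine Finset.sum_eq_zero fun i _ => ?_
    show ind φ j i * (a i * (φ i * z i)) = 0
    by_cases hi : z i = 0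
    · rw [hi]
      ring
    · rw [ind_zero (hex i hi), zero_mul]

theorem clsOn_pow {I : Type} [Fintype I] {J : Set I} {φ : I → ℂ} (hφ : ∀ i, φ i ≠ 0) {a : I → ℂ}
    (ha : ∀ i, IsAlgebraic ℚ (a i)) {e : I → ℕ} {y r : ℂ} (hr : ¬ IsAlgebraic ℚ r)
    (h : ∀ i ∈ J, φ i = a i * y * r ^ e i) : ClsOn J φ := by
  classical
  intro c hc hJ j hj
  have hr0 : r ≠ 0 := by
    rintro rfl
    exact hr isAlgebraic_zero
  have hy0 : y ≠ 0 := by
    rintro rfl
    apply hφ j
    rw [h j hj]
    ring
  have ha0 : ∀ i ∈ J, a i ≠ 0 := by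
    intro i hi h0
    apply hφ i
    rw [h i hi, h0]
    ring
  let b : I → K := fun i => ⟨c i * a i, mem_algebraicClosure_iff.2 ((hc.1 i).mul (ha i))⟩
  have hterm : ∀ i, c i * φ i = y * ((b i : ℂ) * r ^ e i) := by
    intro i
    show c i * φ i = y * (c i * a i * r ^ e i)
    by_cases hi : i ∈ J
    · rw [h i hi]
      ring
    · rw [hJ i hi]
      ring
  have hsum : ∑ i, (b i : ℂ) * r ^ e i = 0 := by
    have h3 : y * ∑ i, (b i : ℂ) * r ^ e i = 0 := by
      rw [← hc.2, Finset.mul_sum]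
      exact Finset.sum_congr rfl fun i _ => (hterm i).symm
    exact (mul_eq_zero.1 h3).resolve_left hy0
  have hP : (∑ i, Polynomial.monomial (e i) (b i) : Polynomial K) = 0 := by
    by_contra hne
    apply hr
    have h4 : IsAlgebraic K r := ⟨_, hne, by
      rw [map_sum, ← hsum]
      refine Finset.sum_congr rfl fun i _ => ?_
      rw [Polynomial.aeval_monomial]
      rfl⟩
    have : Algebra.IsAlgebraic ℚ K := algebraicClosure.isAlgebraic ℚ ℂ
    exact h4.restrictScalars ℚ
  have hco : ∑ i, (if e i = e j then b i else 0) = 0 := by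
    have h5 := congrArg (fun P : Polynomial K => P.coeff (e j)) hP
    simp only [Polynomial.coeff_zero] at h5
    rw [Polynomial.finsetSum_coeff] at h5
    refine Eq.trans (Finset.sum_congr rfl fun i _ => ?_) h5
    rw [Polynomial.coeff_monomial]
  have hcl : ∀ i ∈ J, (IsAlgebraic ℚ (φ i / φ j) ↔ e i = e j) := by
    intro i hi
    have e1 : φ i / φ j = a i / a j * (r ^ e i / r ^ e j) := by
      rw [h i hi, h j hj]
      have := ha0 i hi
      have := ha0 j hj
      field_simp
    have hq : IsAlgebraic ℚ (a i / a j) := by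
      rw [div_eq_mul_inv]
      exact (ha i).mul (ha j).inv
    constructor
    · intro h8
      by_contra hne
      rw [e1] at h8
      have h9 : IsAlgebraic ℚ (r ^ e i / r ^ e j) := by
        have h10 := hq.inv.mul h8
        rwa [← mul_assoc, inv_mul_cancel₀ (div_ne_zero (ha0 i hi) (ha0 j hj)), one_mul] at h10
      rcases Nat.lt_or_gt_of_ne hne with hlt | hlt
      · have h11 := alg_inv_iff h9
        have h12 : r ^ e j / r ^ e i = r ^ (e j - e i) := by
          rw [div_eq_iff (pow_ne_zero _ hr0), ← pow_add]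
          congr 1
          omega
        rw [h12] at h11
        exact hr (h11.of_pow (by omega))
      · have h12 : r ^ e i / r ^ e j = r ^ (e i - e j) := by
          rw [div_eq_iff (pow_ne_zero _ hr0), ← pow_add]
          congr 1
          omega
        rw [h12] at h9
        exact hr (h9.of_pow (by omega))
    · intro h8
      rw [e1, h8, div_self (pow_ne_zero _ hr0), mul_one]
      exact hq
  have h13 : ∀ i, ind φ j i * (c i * φ i) =
      y * r ^ e j * (((if e i = e j then b i else 0) : K) : ℂ) := by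
    intro i
    by_cases hi : i ∈ J
    · by_cases hm : e i = e j
      · rw [ind_one ((hcl i hi).2 hm), if_pos hm, hterm i, hm]
        ring
      · rw [ind_zero fun h => hm ((hcl i hi).1 h), if_neg hm]
        show 0 * _ = _ * (0 : ℂ)
        ring
    · have hb : b i = 0 := by
        apply Subtype.ext
        show c i * a i = 0
        rw [hJ i hi, zero_mul]
      rw [hJ i hi, hb, ite_self]
      show _ * (0 * _) = _ * (0 : ℂ)
      ring
  rw [Finset.sum_congr rfl fun i _ => h13 i, ← Finset.mul_sum]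
  have h14 : ∑ i, (((if e i = e j then b i else 0) : K) : ℂ) =
      ((∑ i, (if e i = e j then b i else 0) : K) : ℂ) := by
    push_cast
    rfl
  rw [h14, hco]
  show _ * (0 : ℂ) = 0
  ring

theorem q1_pow {I : Type} [Fintype I] {φ : I → ℂ} (hφ : ∀ i, φ i ≠ 0) {z : I → ℂ}
    (hz : z ∈ Geo I) {a : I → ℂ} (ha : ∀ i, IsAlgebraic ℚ (a i)) {m : I → ℤ} {y r : ℂ}
    (h : ∀ i, z i ≠ 0 → φ i = a i * y * r ^ m i) : Q1 (Geo I) (Ari φ) z := by
  classical
  by_cases hr : IsAlgebraic ℚ r
  · apply q1_one hφ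
    intro i j hi hj
    rw [h i hi, h j hj]
    have hy0 : y ≠ 0 := by
      rintro rfl
      apply hφ j
      rw [h j hj]
      ring
    have hzp : ∀ n : ℤ, IsAlgebraic ℚ (r ^ n) := by
      intro n
      rcases Int.eq_nat_or_neg n with ⟨k, rfl | rfl⟩
      · rw [zpow_natCast]
        exact hr.pow k
      · rw [zpow_neg, zpow_natCast]
        exact (hr.pow k).inv
    have e : a i * y * r ^ m i / (a j * y * r ^ m j) = a i * (a j)⁻¹ * (r ^ m i * (r ^ m j)⁻¹) := by
      rw [div_eq_mul_inv, mul_inv, mul_inv]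
      field_simp
    rw [e]
    exact ((ha i).mul (ha j).inv).mul ((hzp _).mul (hzp _).inv)
  · have hr0 : r ≠ 0 := by
      rintro rfl
      exact hr isAlgebraic_zero
    obtain ⟨N, hN⟩ : ∃ N : ℕ, ∀ i, 0 ≤ m i + N := by
      refine ⟨∑ i, (m i).natAbs, fun i => ?_⟩
      have h1 : (m i).natAbs ≤ ∑ i, (m i).natAbs :=
        Finset.single_le_sum (f := fun i => (m i).natAbs) (fun _ _ => Nat.zero_le _)
          (Finset.mem_univ i)
      have h2 : -((m i).natAbs : ℤ) ≤ m i := by omega
      have h3 : ((m i).natAbs : ℤ) ≤ ((∑ i, (m i).natAbs : ℕ) : ℤ) := by exact_mod_cast h1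
      linarith
    refine (q1_geo_iff hφ hz).2 ((elem_iff hφ).2 (clsOn_pow hφ ha (e := fun i => (m i + N).toNat)
      (y := y * (r ^ N)⁻¹) hr fun i hi => ?_))
    rw [h i hi]
    have e1 : r ^ m i = r ^ (m i + N).toNat * (r ^ N)⁻¹ := by
      rw [eq_mul_inv_iff_mul_eq₀ (pow_ne_zero _ hr0), ← zpow_natCast r N, ← zpow_add₀ hr0,
        ← zpow_natCast r (m i + N).toNat, Int.toNat_of_nonneg (hN i)]
    rw [e1]
    ring

theorem elem_scale {I : Type} [Fintype I] {J : Set I} {φ : I → ℂ} (h : Elem J φ) {c : ℂ}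
    (hc : c ≠ 0) : Elem J (fun i => c * φ i) := by
  have hr : ∀ a : I → ℂ, Rel (fun i => c * φ i) a ↔ Rel φ a := by
    intro a
    have e : ∑ i, a i * (c * φ i) = c * ∑ i, a i * φ i := by
      rw [Finset.mul_sum]
      exact Finset.sum_congr rfl fun i _ => by ring
    unfold Rel
    rw [e, mul_eq_zero, or_iff_right hc]
  intro a ha hJ
  obtain ⟨b, h1, h2⟩ := h a ((hr a).1 ha) hJ
  exact ⟨b, h1, fun k => ⟨(hr _).2 (h2 k).1, (h2 k).2⟩⟩

end Pool.HAS
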