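import Pool.Agent.H16.HAS.Defs

/-!
Linear algebra over the field of the algebraic numbers.
-/

set_option autoImplicit false

open Finset

noncomputable section

namespace Pool.HAS

/-- The algebraic numbers. -/
abbrev K : IntermediateField ℚ ℂ := algebraicClosure ℚ ℂ

theorem alg_coe (x : K) : IsAlgebraic ℚ (x : ℂ) := (mem_algebraicClosure_iff).1 x.2

/-- The vectors with algebraic coordinates. -/
def Geo (I : Type) : Set (I → ℂ) := {v | ∀ i, IsAlgebraic ℚ (v i)}

/-- The `v` for which all `φ i * v i` are algebraic. -/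
def Ari {I : Type} (φ : I → ℂ) : Set (I → ℂ) := {v | ∀ i, IsAlgebraic ℚ (φ i * v i)}

variable {I : Type} [Fintype I]

/-- the vector with the coordinates in `K` as complex vector -/
def cv (y : I → K) : I → ℂ := fun i => (y i : ℂ)

/-- `l ∘ u` -/
def app (l : ℂ →ₗ[K] K) (u : I → ℂ) : I → K := fun i => l (u i)

theorem smul_K (x : K) (c : ℂ) : x • c = (x : ℂ) * c := rfl

theorem lin_mul (l : ℂ →ₗ[K] K) (x : K) (c : ℂ) : l ((x : ℂ) * c) = x * l c := by
  rw [← smul_K, map_smul, smul_eq_mul]

/-- `c ↦ l (s c)` -/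
def tw (l : ℂ →ₗ[K] K) (s : ℂ) : ℂ →ₗ[K] K :=
  l.comp (LinearMap.mulLeft K s)

theorem tw_apply (l : ℂ →ₗ[K] K) (s c : ℂ) : tw l s c = l (s * c) := rfl

theorem lemA (W : Submodule K (I → K)) {u : I → ℂ}
    (hu : u ∈ Submodule.span ℂ {v | ∃ y ∈ W, v = cv y}) : ∀ l : ℂ →ₗ[K] K, app l u ∈ W := by
  induction hu using Submodule.span_induction with
  | mem x hx =>
      intro l
      obtain ⟨y, hy, rfl⟩ := hx
      have : app l (cv y) = l 1 • y := by
        funext i
        show l ((y i : ℂ)) = l 1 * y i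
        have h := lin_mul l (y i) 1
        rw [mul_one] at h
        rw [h, mul_comm]
      rw [this]
      exact W.smul_mem _ hy
  | zero =>
      intro l
      have : app l (0 : I → ℂ) = 0 := by
        funext i
        show l 0 = 0
        exact map_zero l
      rw [this]
      exact W.zero_mem
  | add x y _ _ hx hy =>
      intro l
      have : app l (x + y) = app l x + app l y := by
        funext i
        show l (x i + y i) = l (x i) + l (y i)
        exact map_add l _ _
      rw [this]
      exact W.add_mem (hx l) (hy l)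
  | smul c x _ hx =>
      intro l
      exact hx (tw l c)

theorem lemB (u : I → ℂ) : u ∈ Submodule.span ℂ {v | ∃ l : ℂ →ₗ[K] K, v = cv (app l u)} := by
  classical
  let b := Module.Basis.ofVectorSpace K ℂ
  let S := (Finset.univ : Finset I).biUnion fun i => (b.repr (u i)).support
  have h : u = ∑ k ∈ S, b k • cv (app (b.coord k) u) := by
    funext i
    rw [Finset.sum_apply]
    have h1 := b.linearCombination_repr (u i)
    rw [Finsupp.linearCombination_apply] at h1
    rw [Finsupp.sum_of_support_subset (s := S) (b.repr (u i))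
      (Finset.subset_biUnion_of_mem (fun i => (b.repr (u i)).support) (Finset.mem_univ i))
      (fun k a => a • b k) (fun k _ => zero_smul _ _)] at h1
    conv_lhs => rw [← h1]
    refine Finset.sum_congr rfl fun k _ => ?_
    show _ • b k = b k * ((b.repr (u i) k : K) : ℂ)
    rw [smul_K, mul_comm]
  rw [h]
  refine Submodule.sum_mem _ fun k _ => Submodule.smul_mem _ _ (Submodule.subset_span ?_)
  rw [← h]
  exact ⟨b.coord k, rfl⟩

/-- the coefficients of a linear form -/
theorem form_apply [DecidableEq I] (f : (I → K) →ₗ[K] K) (x : I → K) :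
    f x = ∑ i, f (Pi.single i 1) * x i := by
  conv_lhs => rw [← Finset.univ_sum_single x]
  rw [map_sum]
  refine Finset.sum_congr rfl fun i _ => ?_
  have : Pi.single i (x i) = x i • (Pi.single i (1 : K) : I → K) := by
    rw [← Pi.single_smul, smul_eq_mul, mul_one]
  rw [this, map_smul, smul_eq_mul, mul_comm]

theorem lin_sum (l : ℂ →ₗ[K] K) (a : I → K) (u : I → ℂ) :
    l (∑ i, (a i : ℂ) * u i) = ∑ i, a i * l (u i) := by
  rw [map_sum]
  exact Finset.sum_congr rfl fun i _ => lin_mul l _ _

theorem exists_form {x : ℂ} (hx : x ≠ 0) : ∃ l : ℂ →ₗ[K] K, l x = 1 := by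
  obtain ⟨f, hf⟩ : ∃ f : ℂ →ₗ[K] K, f x ≠ 0 := by
    by_contra h
    push Not at h
    exact hx ((Module.forall_dual_apply_eq_zero_iff K x).1 h)
  refine ⟨(f x)⁻¹ • f, ?_⟩
  simp [hf]

theorem exists_form2 {x y : ℂ} (hy : y ≠ 0) (hxy : ¬ IsAlgebraic ℚ (x / y)) :
    ∃ l : ℂ →ₗ[K] K, l x = 1 ∧ l y = 0 := by
  have h1 : x ∉ Submodule.span K {y} := by
    intro h
    obtain ⟨c, hc⟩ := Submodule.mem_span_singleton.1 h
    apply hxy
    rw [← hc, smul_K, mul_div_assoc, div_self hy, mul_one]
    exact alg_coe c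
  obtain ⟨f, hf, hf'⟩ := Submodule.exists_le_ker_of_notMem h1
  refine ⟨(f x)⁻¹ • f, by simp [hf], ?_⟩
  have : f y = 0 := hf' (Submodule.mem_span_singleton_self y)
  simp [this]

end Pool.HAS
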