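import Pool.Agent.H16.HAS.Bi

/-!
Q1 at `z` in terms of the linear relations.
-/

set_option autoImplicit false

open Finset

noncomputable section

namespace Pool.HAS

variable {I : Type}

theorem alg_trans {x y w : ℂ} (hy : y ≠ 0) (h1 : IsAlgebraic ℚ (x / y)) (h2 : IsAlgebraic ℚ (y / w)) :
    IsAlgebraic ℚ (x / w) := by
  have h := h1.mul h2
  have e : x / y * (y / w) = x / w := by
    rcases eq_or_ne w 0 with rfl | hw
    · simp
    · field_simp
  rwa [e] at h

theorem ind_one {φ : I → ℂ} {i j : I} (h : IsAlgebraic ℚ (φ i / φ j)) : ind φ j i = 1 := by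
  unfold ind
  exact if_pos h

theorem ind_zero {φ : I → ℂ} {i j : I} (h : ¬ IsAlgebraic ℚ (φ i / φ j)) : ind φ j i = 0 := by
  unfold ind
  exact if_neg h

theorem ind_alg (φ : I → ℂ) (i j : I) : IsAlgebraic ℚ (ind φ j i) := by
  by_cases h : IsAlgebraic ℚ (φ i / φ j)
  · rw [ind_one h]
    exact isAlgebraic_one
  · rw [ind_zero h]
    exact isAlgebraic_zero

theorem ind_symm (φ : I → ℂ) (i j : I) : ind φ j i = ind φ i j := by
  by_cases h : IsAlgebraic ℚ (φ i / φ j)
  · rw [ind_one h, ind_one (alg_inv_iff h)]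
  · rw [ind_zero h, ind_zero fun h' => h (alg_inv_iff h')]

theorem ind_congr {φ : I → ℂ} (hφ : ∀ i, φ i ≠ 0) {i j : I} (h : IsAlgebraic ℚ (φ i / φ j)) (l : I) :
    ind φ j l = ind φ i l := by
  by_cases h1 : IsAlgebraic ℚ (φ l / φ j)
  · rw [ind_one h1, ind_one (alg_trans (hφ j) h1 (alg_inv_iff h))]
  · rw [ind_zero h1, ind_zero fun h' => h1 (alg_trans (hφ i) h' h)]

variable [Fintype I]

theorem weights {φ : I → ℂ} (hφ : ∀ i, φ i ≠ 0) :
    ∃ c : I → ℂ, (∀ j, IsAlgebraic ℚ (c j)) ∧ ∀ i, ∑ j, c j * ind φ j i = 1 := by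
  classical
  have hn : ∀ j, ∑ i, ind φ j i ≠ 0 := by
    intro j
    have e : ∑ i, ind φ j i = ((univ.filter fun i => IsAlgebraic ℚ (φ i / φ j)).card : ℂ) := by
      rw [Finset.card_filter]
      push_cast
      refine Finset.sum_congr rfl fun i _ => ?_
      by_cases h : IsAlgebraic ℚ (φ i / φ j)
      · rw [ind_one h, if_pos h]
      · rw [ind_zero h, if_neg h]
    rw [e]
    have hj : j ∈ univ.filter fun i => IsAlgebraic ℚ (φ i / φ j) := by
      simp only [mem_filter, mem_univ, true_and]
      rw [div_self (hφ j)]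
      exact isAlgebraic_one
    exact_mod_cast (Finset.card_pos.2 ⟨j, hj⟩).ne'
  refine ⟨fun j => (∑ i, ind φ j i)⁻¹, fun j => ?_, fun i => ?_⟩
  · refine IsAlgebraic.inv ?_
    exact (Subalgebra.sum_mem (algebraicClosure ℚ ℂ).toSubalgebra fun i _ =>
      (mem_algebraicClosure_iff.2 (ind_alg φ i j) : _)) |> fun h => mem_algebraicClosure_iff.1 h
  · have e : ∀ j, (∑ l, ind φ j l)⁻¹ * ind φ j i = (∑ l, ind φ i l)⁻¹ * ind φ i j := by
      intro j
      by_cases h : IsAlgebraic ℚ (φ i / φ j)
      · rw [ind_one h, ind_one (alg_inv_iff h)]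
        congr 2
        exact Finset.sum_congr rfl fun l _ => ind_congr hφ h l
      · rw [ind_zero h, ind_zero fun h' => h (alg_inv_iff h')]
        simp
    rw [Finset.sum_congr rfl fun j _ => e j, ← Finset.mul_sum]
    exact inv_mul_cancel₀ (hn i)

theorem split_iff {φ : I → ℂ} (hφ : ∀ i, φ i ≠ 0) (u : I → ℂ) : Split φ u ↔ Cls φ u := by
  constructor
  · intro h a ha j
    obtain ⟨b, hab, hb⟩ := h a ha
    have h1 : ∑ i, ind φ j i * (a i * u i) = ∑ k, ∑ i, ind φ j i * (b k i * u i) := by
      rw [Finset.sum_comm]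
      refine Finset.sum_congr rfl fun i _ => ?_
      rw [hab, Finset.sum_apply, Finset.sum_mul, Finset.mul_sum]
    rw [h1]
    refine Finset.sum_eq_zero fun k _ => ?_
    obtain ⟨⟨-, hs⟩, hc⟩ := hb k
    by_cases hex : ∃ i0, b k i0 ≠ 0 ∧ IsAlgebraic ℚ (φ i0 / φ j)
    · obtain ⟨i0, h0, h0'⟩ := hex
      rw [← hs]
      refine Finset.sum_congr rfl fun i _ => ?_
      by_cases hi : b k i = 0
      · rw [hi]
        ring
      · rw [ind_one (alg_trans (hφ i0) (hc i i0 hi h0) h0'), one_mul]
    · push Not at hex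
      refine Finset.sum_eq_zero fun i _ => ?_
      by_cases hi : b k i = 0
      · rw [hi]
        ring
      · rw [ind_zero (hex i hi)]
        ring
  · intro h a ha
    obtain ⟨c, hc, hc1⟩ := weights hφ
    refine ⟨fun j i => c j * ind φ j i * a i, ?_, fun j => ⟨⟨fun i => ?_, ?_⟩, ?_⟩⟩
    · funext i
      rw [Finset.sum_apply, ← Finset.sum_mul, hc1, one_mul]
    · exact ((hc j).mul (ind_alg φ i j)).mul (ha.1 i)
    · have h1 := h a ha j
      calc _ = c j * ∑ i, ind φ j i * (a i * u i) := by
            rw [Finset.mul_sum]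
            exact Finset.sum_congr rfl fun i _ => by ring
        _ = 0 := by rw [h1, mul_zero]
    · intro i l hi hl
      have h1 : IsAlgebraic ℚ (φ i / φ j) := by
        by_contra h2
        apply hi
        show c j * ind φ j i * a i = 0
        rw [ind_zero h2]
        ring
      have h2 : IsAlgebraic ℚ (φ l / φ j) := by
        by_contra h2
        apply hl
        show c j * ind φ j l * a l = 0
        rw [ind_zero h2]
        ring
      exact alg_trans (hφ j) h1 (alg_inv_iff h2)

/-- the class projections preserve the vectors `l ∘ u` -/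
theorem proj_app {φ u : I → ℂ} (h : Cls φ u) (l : ℂ →ₗ[K] K) (j : I) :
    ∃ l' : ℂ →ₗ[K] K, ∀ i, ind φ j i * ((l (u i) : K) : ℂ) = ((l' (u i) : K) : ℂ) := by
  classical
  let L : (ℂ →ₗ[K] K) →ₗ[K] (I → K) :=
    { toFun := fun l => app l u
      map_add' := fun x y => rfl
      map_smul' := fun c x => rfl }
  let e : I → K := fun i => ⟨ind φ j i, mem_algebraicClosure_iff.2 (ind_alg φ i j)⟩
  have key : (fun i => e i * l (u i)) ∈ LinearMap.range L := by
    by_contra hn
    obtain ⟨f, hf, hf'⟩ := Submodule.exists_le_ker_of_notMem hn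
    let a : I → K := fun i => f (Pi.single i 1)
    have ha : ∀ x, f x = ∑ i, a i * x i := fun x => form_apply f x
    have hrel : ∑ i, (a i : ℂ) * u i = 0 := by
      by_contra hne
      obtain ⟨m, hm⟩ := exists_form hne
      rw [lin_sum] at hm
      have h1 : f (app m u) = 0 := hf' ⟨m, rfl⟩
      rw [ha] at h1
      have h2 : ∑ i, a i * m (u i) = 0 := h1
      rw [h2] at hm
      exact zero_ne_one hm
    have h3 := h (fun i => (a i : ℂ)) ⟨fun i => alg_coe _, hrel⟩ j
    apply hf
    rw [ha]
    have h4 : l (∑ i, ((e i * a i : K) : ℂ) * u i) = 0 := by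
      have h5 : ∑ i, ((e i * a i : K) : ℂ) * u i = 0 := by
        rw [← h3]
        refine Finset.sum_congr rfl fun i _ => ?_
        show ((e i : K) : ℂ) * (a i : ℂ) * u i = _
        rw [mul_assoc]
      rw [h5, map_zero]
    rw [lin_sum] at h4
    rw [← h4]
    exact Finset.sum_congr rfl fun i _ => by ring
  obtain ⟨l', hl'⟩ := key
  refine ⟨l', fun i => ?_⟩
  have := congrFun hl' i
  have h6 : l' (u i) = e i * l (u i) := this
  rw [h6]
  rfl

theorem q1_of_cls {φ z : I → ℂ} (hφ : ∀ i, φ i ≠ 0) (h : Cls φ (fun i => φ i * z i)) : Q1 (Geo I) (Ari φ) z := by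
  classical
  intro V hV hz
  obtain ⟨u, hu⟩ : ∃ u : I → ℂ, u = fun i => φ i * z i := ⟨_, rfl⟩
  rw [← hu] at h
  let S1 : Set (I → ℂ) := {v | ∃ l : ℂ →ₗ[K] K, v = fun i => (φ i)⁻¹ * ((l (u i) : K) : ℂ)}
  let S2 : Set (I → ℂ) := {v | ∃ (l : ℂ →ₗ[K] K) (j : I),
    v = fun i => φ j * (ind φ j i * ((φ i)⁻¹ * ((l (u i) : K) : ℂ)))}
  have hS1A : S1 ⊆ Ari φ := by
    rintro _ ⟨l, rfl⟩ i
    rw [mul_inv_cancel_left₀ (hφ i)]
    exact alg_coe _
  have hS2G : S2 ⊆ Geo I := by
    rintro _ ⟨l, j, rfl⟩ i
    by_cases hc : IsAlgebraic ℚ (φ i / φ j)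
    · have e : φ j * (ind φ j i * ((φ i)⁻¹ * ((l (u i) : K) : ℂ))) =
          φ j / φ i * ((l (u i) : K) : ℂ) := by
        rw [ind_one hc]
        ring
      show IsAlgebraic ℚ (φ j * (ind φ j i * ((φ i)⁻¹ * ((l (u i) : K) : ℂ))))
      rw [e]
      exact (alg_inv_iff hc).mul (alg_coe _)
    · show IsAlgebraic ℚ (φ j * (ind φ j i * ((φ i)⁻¹ * ((l (u i) : K) : ℂ))))
      rw [ind_zero hc, zero_mul, mul_zero]
      exact isAlgebraic_zero
  have h12 : Submodule.span ℂ S1 = Submodule.span ℂ S2 := by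
    apply le_antisymm
    · obtain ⟨c, -, hc1⟩ := weights hφ
      refine Submodule.span_le.2 ?_
      rintro _ ⟨l, rfl⟩
      have e : (fun i => (φ i)⁻¹ * ((l (u i) : K) : ℂ)) = ∑ j, (c j * (φ j)⁻¹) •
          (fun i => φ j * (ind φ j i * ((φ i)⁻¹ * ((l (u i) : K) : ℂ)))) := by
        funext i
        rw [Finset.sum_apply]
        have h1 : ∀ j, ((c j * (φ j)⁻¹) •
            (fun i => φ j * (ind φ j i * ((φ i)⁻¹ * ((l (u i) : K) : ℂ))))) i =
            c j * ind φ j i * ((φ i)⁻¹ * ((l (u i) : K) : ℂ)) := by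
          intro j
          show c j * (φ j)⁻¹ * (φ j * (ind φ j i * ((φ i)⁻¹ * ((l (u i) : K) : ℂ)))) = _
          have := hφ j
          field_simp
        rw [Finset.sum_congr rfl fun j _ => h1 j, ← Finset.sum_mul, hc1, one_mul]
      show (fun i => (φ i)⁻¹ * ((l (u i) : K) : ℂ)) ∈ Submodule.span ℂ S2
      rw [e]
      exact Submodule.sum_mem _ fun j _ => Submodule.smul_mem _ _
        (Submodule.subset_span ⟨l, j, rfl⟩)
    · refine Submodule.span_le.2 ?_
      rintro _ ⟨l, j, rfl⟩
      obtain ⟨l', hl'⟩ := proj_app h l j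
      have e : (fun i => φ j * (ind φ j i * ((φ i)⁻¹ * ((l (u i) : K) : ℂ)))) =
          φ j • (fun i => (φ i)⁻¹ * ((l' (u i) : K) : ℂ)) := by
        funext i
        show φ j * (ind φ j i * ((φ i)⁻¹ * ((l (u i) : K) : ℂ))) = φ j * ((φ i)⁻¹ * _)
        rw [← hl' i]
        ring
      show (fun i => φ j * (ind φ j i * ((φ i)⁻¹ * ((l (u i) : K) : ℂ)))) ∈ Submodule.span ℂ S1
      rw [e]
      exact Submodule.smul_mem _ _ (Submodule.subset_span ⟨l', rfl⟩)
  refine ⟨Submodule.span ℂ S1, ?_, rat_span hS1A, ?_, ?_⟩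
  · refine Submodule.span_le.2 ?_
    rintro _ ⟨l, rfl⟩
    have h1 := lemA _ (lemE hφ hV hz) l
    rw [mem_Wf] at h1
    rw [hu]
    exact h1
  · rw [h12]
    exact rat_span hS2G
  · have h1 := lemB u
    have key : ∀ w ∈ Submodule.span ℂ {v | ∃ l : ℂ →ₗ[K] K, v = cv (app l u)},
        (fun i => (φ i)⁻¹ * w i) ∈ Submodule.span ℂ S1 := by
      intro w hw
      induction hw using Submodule.span_induction with
      | mem x hx =>
          obtain ⟨l, rfl⟩ := hx
          exact Submodule.subset_span ⟨l, rfl⟩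
      | zero =>
          refine mem_eq (Submodule.zero_mem _) ?_
          funext i
          simp
      | add x y _ _ hx hy =>
          refine mem_eq (Submodule.add_mem _ hx hy) ?_
          funext i
          simp [mul_add]
      | smul c x _ hx =>
          refine mem_eq (Submodule.smul_mem _ c hx) ?_
          funext i
          simp [Pi.smul_apply, smul_eq_mul]
          ring
    refine mem_eq (key _ h1) ?_
    funext i
    rw [hu, inv_mul_cancel_left₀ (hφ i)]

theorem q1_iff {φ : I → ℂ} (hφ : ∀ i, φ i ≠ 0) (z : I → ℂ) :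
    Q1 (Geo I) (Ari φ) z ↔ Split φ (fun i => φ i * z i) := by
  rw [split_iff hφ]
  exact ⟨cls_of_q1 hφ, q1_of_cls hφ⟩

/-- the class sums of the relations on `J` vanish -/
def ClsOn (J : Set I) (φ : I → ℂ) : Prop :=
  ∀ a, Rel φ a → (∀ i, i ∉ J → a i = 0) → ∀ j ∈ J, ∑ i, ind φ j i * (a i * φ i) = 0

theorem clsOn_all {J : Set I} {φ : I → ℂ} (hφ : ∀ i, φ i ≠ 0) (h : ClsOn J φ) {a : I → ℂ}
    (ha : Rel φ a) (hJ : ∀ i, i ∉ J → a i = 0) (j : I) : ∑ i, ind φ j i * (a i * φ i) = 0 := by
  by_cases hex : ∃ i0 ∈ J, IsAlgebraic ℚ (φ i0 / φ j)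
  · obtain ⟨i0, h0, h1⟩ := hex
    rw [← h a ha hJ i0 h0]
    exact Finset.sum_congr rfl fun i _ => by rw [ind_congr hφ h1]
  · push Not at hex
    refine Finset.sum_eq_zero fun i _ => ?_
    by_cases hi : i ∈ J
    · rw [ind_zero (hex i hi), zero_mul]
    · rw [hJ i hi]
      ring

theorem elem_iff {J : Set I} {φ : I → ℂ} (hφ : ∀ i, φ i ≠ 0) : Elem J φ ↔ ClsOn J φ := by
  classical
  constructor
  · intro h a ha hJ j _
    obtain ⟨b, hab, hb⟩ := h a ha hJ
    have h1 : ∑ i, ind φ j i * (a i * φ i) = ∑ k, ∑ i, ind φ j i * (b k i * φ i) := by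
      rw [Finset.sum_comm]
      refine Finset.sum_congr rfl fun i _ => ?_
      rw [hab, Finset.sum_apply, Finset.sum_mul, Finset.mul_sum]
    rw [h1]
    refine Finset.sum_eq_zero fun k _ => ?_
    obtain ⟨⟨hal, hs⟩, p, q, hpq⟩ := hb k
    by_cases hall : ∀ i, b k i = 0
    · exact Finset.sum_eq_zero fun i _ => by rw [hall i]; ring
    · push Not at hall
      obtain ⟨i0, h0⟩ := hall
      -- the support is contained in the class of `i0`
      have hcl : ∀ i, b k i ≠ 0 → IsAlgebraic ℚ (φ i / φ i0) := by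
        intro i hi
        by_cases hii : i = i0
        · rw [hii, div_self (hφ i0)]
          exact isAlgebraic_one
        · have hz : ∀ l, l ≠ i → l ≠ i0 → b k l = 0 := by
            intro l h1 h2
            by_contra h3
            have a1 : i = p ∨ i = q := by
              by_contra h4
              push Not at h4
              exact hi (hpq i h4.1 h4.2)
            have a2 : i0 = p ∨ i0 = q := by
              by_contra h4
              push Not at h4
              exact h0 (hpq i0 h4.1 h4.2)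
            have a3 : l = p ∨ l = q := by
              by_contra h4
              push Not at h4
              exact h3 (hpq l h4.1 h4.2)
            rcases a1 with rfl | rfl <;> rcases a2 with rfl | rfl <;> rcases a3 with rfl | rfl <;>
              simp_all
          have h5 : b k i * φ i + b k i0 * φ i0 = 0 := by
            rw [← hs]
            symm
            rw [← Finset.sum_pair hii (f := fun l => b k l * φ l)]
            symm
            refine Finset.sum_subset (Finset.subset_univ _) fun l _ hl => ?_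
            simp only [Finset.mem_insert, Finset.mem_singleton, not_or] at hl
            rw [hz l hl.1 hl.2, zero_mul]
          have h6 : φ i / φ i0 = -(b k i0) / b k i := by
            have := hφ i0
            rw [div_eq_div_iff (hφ i0) hi]
            linear_combination h5
          rw [h6, div_eq_mul_inv]
          exact ((hal i0).neg).mul (hal i).inv
      by_cases hj : IsAlgebraic ℚ (φ i0 / φ j)
      · rw [← hs]
        refine Finset.sum_congr rfl fun i _ => ?_
        by_cases hi : b k i = 0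
        · rw [hi]; ring
        · rw [ind_one (alg_trans (hφ i0) (hcl i hi) hj), one_mul]
      · refine Finset.sum_eq_zero fun i _ => ?_
        by_cases hi : b k i = 0
        · rw [hi]; ring
        · rw [ind_zero fun h' => hj (alg_trans (hφ i) (alg_inv_iff (hcl i hi)) h')]
          ring
  · intro h a ha hJ
    let s : Setoid I :=
      { r := fun i j => IsAlgebraic ℚ (φ i / φ j)
        iseqv := ⟨fun i => by rw [div_self (hφ i)]; exact isAlgebraic_one,
          fun h => alg_inv_iff h, fun {x y w} h1 h2 => alg_trans (hφ y) h1 h2⟩ }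
    let r : I → I := fun i => (Quotient.mk s i).out
    have hr : ∀ i, IsAlgebraic ℚ (φ (r i) / φ i) := fun i => Quotient.mk_out (s := s) i
    have hr2 : ∀ i j, IsAlgebraic ℚ (φ i / φ j) → r i = r j := by
      intro i j hij
      show (Quotient.mk s i).out = (Quotient.mk s j).out
      rw [Quotient.sound (s := s) hij]
    refine ⟨fun i => a i • (Pi.single i (1 : ℂ) : I → ℂ) -
      (a i * φ i / φ (r i)) • (Pi.single (r i) (1 : ℂ) : I → ℂ), ?_, fun i => ⟨⟨fun l => ?_, ?_⟩,
      i, r i, fun l h1 h2 => ?_⟩⟩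
    · funext l
      rw [Finset.sum_apply]
      simp only [Pi.sub_apply, Pi.smul_apply, smul_eq_mul, Finset.sum_sub_distrib]
      have e1 : ∑ i, a i * (Pi.single i (1 : ℂ) : I → ℂ) l = a l := by
        rw [Finset.sum_eq_single l]
        · simp
        · intro i _ hi
          rw [Pi.single_eq_of_ne (Ne.symm hi)]
          ring
        · simp
      have e2 : ∑ i, a i * φ i / φ (r i) * (Pi.single (r i) (1 : ℂ) : I → ℂ) l = 0 := by
        by_cases hl : ∃ i0, r i0 = l
        · obtain ⟨i0, rfl⟩ := hl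
          have e3 : ∀ i, a i * φ i / φ (r i) * (Pi.single (r i) (1 : ℂ) : I → ℂ) (r i0) =
              (φ (r i0))⁻¹ * (ind φ i0 i * (a i * φ i)) := by
            intro i
            by_cases hi : IsAlgebraic ℚ (φ i / φ i0)
            · rw [ind_one hi, hr2 i i0 hi, Pi.single_eq_same]
              ring
            · rw [ind_zero hi, Pi.single_eq_of_ne]
              · ring
              · intro hh
                apply hi
                have h1 := alg_inv_iff (hr i)
                rw [← hh] at h1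
                exact alg_trans (hφ _) h1 (hr i0)
          rw [Finset.sum_congr rfl fun i _ => e3 i, ← Finset.mul_sum, clsOn_all hφ h ha hJ i0,
            mul_zero]
        · push Not at hl
          refine Finset.sum_eq_zero fun i _ => ?_
          rw [Pi.single_eq_of_ne (Ne.symm (hl i))]
          ring
      rw [e1, e2, sub_zero]
    · have hs : ∀ (x l : I), IsAlgebraic ℚ ((Pi.single x (1 : ℂ) : I → ℂ) l) := by
        intro x l
        by_cases hx : l = x
        · rw [hx, Pi.single_eq_same]
          exact isAlgebraic_one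
        · rw [Pi.single_eq_of_ne hx]
          exact isAlgebraic_zero
      show IsAlgebraic ℚ (a i * (Pi.single i (1 : ℂ) : I → ℂ) l -
        a i * φ i / φ (r i) * (Pi.single (r i) (1 : ℂ) : I → ℂ) l)
      refine ((ha.1 i).mul (hs i l)).sub (IsAlgebraic.mul ?_ (hs _ l))
      rw [mul_div_assoc]
      exact (ha.1 i).mul (alg_inv_iff (hr i))
    · have e1 : ∀ (x : I), ∑ l, (Pi.single x (1 : ℂ) : I → ℂ) l * φ l = φ x := by
        intro x
        rw [Finset.sum_eq_single x]
        · simp
        · intro l _ hl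
          rw [Pi.single_eq_of_ne hl]
          ring
        · simp
      have e2 : ∑ l, (a i • (Pi.single i (1 : ℂ) : I → ℂ) -
          (a i * φ i / φ (r i)) • (Pi.single (r i) (1 : ℂ) : I → ℂ)) l * φ l =
          a i * ∑ l, (Pi.single i (1 : ℂ) : I → ℂ) l * φ l -
          a i * φ i / φ (r i) * ∑ l, (Pi.single (r i) (1 : ℂ) : I → ℂ) l * φ l := by
        rw [Finset.mul_sum, Finset.mul_sum, ← Finset.sum_sub_distrib]
        refine Finset.sum_congr rfl fun l _ => ?_
        simp only [Pi.sub_apply, Pi.smul_apply, smul_eq_mul]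
        ring
      rw [e2, e1, e1, div_mul_cancel₀ _ (hφ _), sub_self]
    · show a i * (Pi.single i (1 : ℂ) : I → ℂ) l -
        a i * φ i / φ (r i) * (Pi.single (r i) (1 : ℂ) : I → ℂ) l = 0
      rw [Pi.single_eq_of_ne h1, Pi.single_eq_of_ne h2]
      ring

end Pool.HAS
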